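import Pool.Agent.H97.HV.All3

/-!
# MP_e37c09_lc: the second case of the dichotomy and the models HOD(V_γ)

Let `δ` be extendible and `κ > δ` regular. A limit ordinal `γ ≤ κ` fits `κ` (`Fit γ κ`) if `V_l`
has fewer than `κ` elements for all `l < γ`. If `κ` is inaccessible this is true for all limit
ordinals `γ ≤ κ`; for all regular `κ > δ` it is true for the limit ordinals `γ ≤ δ`, and also for
all `γ` such that `V_γ` has at most `κ` elements (first part of the theorem).

`NV γ` is the model HOD(V_γ) of the sets which are hereditarily definable from ordinals and an
element of `V_γ`; it is a model of ZF which contains `V_γ`, so if `κ` is inaccessible HOD(V_κ)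
contains `V_κ`. For a limit ordinal `ξ ≤ κ` let `N ξ` be the model HOD(V_(min γ ξ)) and
`N = N κ` = HOD(V_γ). `cf` is the cofinality in `V`.

THEOREM. (0) (`MeaN`, `SucIna`) If `κ` is the successor of a singular cardinal, or inaccessible and
not a limit of inaccessible cardinals, then (A) fails if and only if `κ` is measurable in `N`: there
is `U ∈ N` which is in `N` a nonprincipal `κ`-complete ultrafilter on `κ`. So Q1 is equivalent to the
statement that the least inaccessible cardinal `κ > δ` is not measurable in HOD(V_κ), which contains
`V_κ`.

For EVERY pair `(γ, κ)` as above each of the following statements is equivalent to the failure of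
(A), that is to (B).

(1) (`MCof`) `N` has a normal measure on `κ` which contains `{a < κ : a limit, cf a < δ}`.

(2) (`FIL`) For each regular `μ < δ` there are fewer than `δ` ordinal definable sets `S i` which are
stationary in the points of cofinality `μ` and cover almost all of them, such that the sets `x ⊆ κ`
in `N` which contain almost all points of cofinality `μ` of `S i` form a normal measure of `N` (and
an element of `N`). Almost all: up to the complement of a club subset of `κ` in `V`. So in `N` the
filter generated by the clubs of `V` on the points of cofinality `μ` is the intersection of fewer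
than `δ` normal measures.

(3) (`RegS`) Some `ξ` in `(δ, κ)` with `cf ξ < δ` is regular in `N ξ`.

(4) (`EmbS`) For some `ξ` in `(δ, κ)` with `cf ξ < δ` there is an elementary embedding `i` of
`V_(ξ+1)` of `N ξ` into `V_(κ+1)` of `N` with `i ξ = κ` which is the identity on `V_ξ` of `N ξ`.

(5) (`RegC`) Club many `ξ < κ` are regular in `N ξ`.

(6) (`VEN`) There are a club set `C` in `κ` and an enumeration `e z` (`z < κ`) of `V_(κ+1)` of `N`
such that for all `ξ ∈ C` the elements of `V_(ξ+1)` of `N ξ` are the sets `e z ∩ V_ξ`, `z < ξ`, and
there is an embedding as in (4).

(7) (`INDH`) Each `T ⊆ κ` which meets all clubs in points of cofinality less than `δ` has such a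
subset `A` which is homogeneous: for all `β ≤ κ` such that `A ∩ β` is unbounded in `β` each
regressive function on `β` in `N β` is constant on a final segment of `A ∩ β`. Two variants, also
equivalent to the failure of (A): (`INDN`) the same, and moreover for each sequence `Y n` (`n < β`)
in `N β` the set of the `n` such that `Y n` contains a final segment of `A ∩ β` is in `N β`;
(`INDW`) there is one unbounded set `A` of limit ordinals of cofinality less than `δ` such that each
regressive function on `κ` in `N` is constant on a final segment of `A`.

(8) (`CLSN`) For all infinite `μ < δ` let `S(C)` be the set of the nonempty sets of at most `μ`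
points of `C` of cofinality at most `μ`. Modulo the sets `S(C)`, `C` club in `κ`, there are fewer
than `δ` sets which are definable from ordinals and an element of `V_γ`.

(9) (`RBMN`) For all infinite `μ < δ` and each function `f` which is definable from ordinals and an
element of `V_γ` there is a club set `C` such that fewer than `δ` ordinals `i` are of the form
`i = f x < min x`, `x ∈ S(C)`.

If moreover `κ` is not the successor of a cardinal of cofinality `ω`, also the following statements
are equivalent to the failure of (A).

(10) (`NES`) For some `ξ` in `(δ, κ)` with `cf ξ < δ` there is an elementary embedding of the whole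
model `N ξ` into a transitive class with critical point `ξ`.

(11) (`NEC`) For club many `ξ < κ` of uncountable cofinality there is an elementary embedding `j` of
the whole model `N ξ` into a transitive class `M` which extends an embedding as in (4), such that
`M` and `N` have the same elements of `V_κ` and the subsets of `V_κ` in `M` are in `N`. So if
`γ = κ` is inaccessible then `j : HOD(V_ξ) → M`, `j ξ = κ` and `V_κ ⊆ M` (`j` is superstrong).

In both cases (A) and (B) the following is true if `δ ≤ γ`.

(12) (`NoBdd`) There is a club set `C` in `κ` such that for all sets `x` of fewer than `δ` points of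
`C` of cofinality less than `δ` and all `m ∈ x` with `x ∩ m` finite each subset of `m` which is
definable from `x`, ordinals and an element of `V_(min γ m)` is definable from ordinals and an
element of `V_(min γ m)`: the sets `x` add no bounded subsets to the models `N m`, which contain
`V_(min γ m)`. If (A) fails `m` is regular in `N m` by (5), also if `m` is of cofinality `ω` in `V`.

So Q1 is equivalent to the negation of each of (0) - (11) for one pair, for example for `γ = κ`,
the least inaccessible cardinal above `δ`, where the model HOD(V_κ) contains all of `V_κ` (in
particular it computes the cofinalities of all ordinals less than `κ` correctly, and `V_κ` is a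
model of ZFC, in spite of the measure in (1)). `V_γ` can not be replaced by `V_(γ+1)`: if `γ` is a
singular strong limit cardinal of uncountable cofinality then all subsets of `γ` are definable from
ordinals and one subset of `γ` (Shelah).

Proof. Let (A) fail. Woodin: for each regular `μ < δ` the points of cofinality `μ` are, up to a
nonstationary set, the union of fewer than `δ` ordinal definable atoms: stationary sets which are
not the union of two disjoint ordinal definable stationary sets.

Parameters. Let `R` be ordinal definable and `l < γ`. As there are fewer than `κ` subsets of `V_l`
in an ordinal definable list, for each atom `E` there is ONE club `C` such that for all `a ∈ V_l`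
the set `{b : (a, b) ∈ R}` contains `E ∩ C` or is disjoint to it. Each subset of `κ` which is
definable from `a ∈ V_l` and ordinals is of this form. So atoms are not split by such sets: (2), (1).

Enumeration. If `Q` is an ordinal definable set with fewer than `κ` elements, all definable from
ordinals and an element of `V_γ`, then it has fewer than `κ` ordinal definable subsets: otherwise
let `h i`, `i < κ`, be different ordinal definable subsets, as a function definable from ordinals;
for `s ∈ Q` the set `{i : s ∈ h i}` does not split the atom, so on a club subset of `E` the function
`h` is constant. Hence `V_l` of `N` has fewer than `κ` elements for `l < κ`, and the ordinal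
definable subsets of `V_l × V_κ^N` can be coded by subsets of `κ` in HOD, by which one gets from the
HOD versions that they are enumerated in length `κ`, and that sequences `R ξ ⊆ V_l × V_ξ^N` of
ordinal definable sets cohere on a stationary set. An element of `V_(ξ+1)` of `N ξ` is a section
`{z : (a, z) ∈ R}` of such a set at some `a ∈ V_l`, `l < min γ ξ`. By Fodor's theorem, used for `l` and
for `a`, this gives (6), so (4). (5) follows as a function from `τ < ξ` to `ξ` in `N ξ` is of the
form `e z ∩ V_ξ`, and (3) is a special case. (7): the intersection of `E` with the diagonal
intersection of the clubs on which the regressive functions `e z` are constant and the sections of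
the sets `e z` are decided.

(11): the ultrapower of `N ξ` by the embedding in (4): terms `[f, b]`, `f ∈ N ξ` a function, `b` in
`V_κ` of `N`. The theorem of Łoś is true although `N ξ` does not satisfy the axiom of choice: a
witness for `w ∈ V_ξ^N` is definable from ordinals and some `s ∈ V_(min γ ξ)`, and the function
`h (w, s)` = the witness definable from `s` with the least code is in `N ξ`; so `[h, (b, s)]` is a
witness for a suitable `s ∈ V_κ^N`. The ultrapower is well-founded for `ξ` in a club which is closed
under the least ranks of countable sequences of witnesses. (10) is a special case.

(8), (9), (12): a family `F` of maps `x ↦ F_i x` splits at `i` if two positive classes (modulo the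
`S(C)`) of small sets agree before `i` and differ at `i`. An ordinal definable family has fewer than
`δ` splitting places (the argument of Solovay, as in PrikrySequences; otherwise some `α` of
cofinality less than `δ` which is regular in HOD would have a small cofinal subset in HOD). If the
values are subsets of `V_(l i)`, `l i < γ`, then by induction on `n` almost all `x` are in fewer than
`δ` classes at the level `n < κ`: limits by the splitting places, successors by a reflection
argument. A family of ordinal definable maps with values in the `V_l`, `l < γ`, which is finest
modulo the `S(C)` exists by recursion and has fewer than `δ` places: (8) and (9). (12): the branches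
of the classes below `m` are fewer than `δ` sets, so each OD_x subset of `m × V_l` is in an ordinal
definable set with fewer than `δ` elements; its elements are definable from an element of `V_δ`. If
(A) holds then `x` is in such a set.

Let (A) hold. Each limit ordinal `ξ` with `cf ξ < δ` has a cofinal subset with fewer than `δ`
elements which is definable from `ξ`, uniformly: `ξ` is singular in HOD if `ξ > δ`, and (3), (4),
(10) fail. If (1) holds, by normality there is `A` which coincides with these cofinal sets below
`ξ` for many `ξ`, so `A ∩ ξ` has fewer than `δ` elements, a contradiction. (7), (8), (9) are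
similar: (7) gives constant values `c_n ≥ n` for the least element `≥ n` of the cofinal set, and by
(8) or (9) there is an atom, so (1) holds. (0): if `U` is a measure of `N` then there is a function
`f : κ → κ` which is definable from `U` and ordinals and minimal among the functions of this kind
which are not bounded modulo `U` (otherwise there is a descending sequence of such functions which
is definable from `U`, so is in `N`). The image of `U` under `f` is normal for the relations between
ordinals which are definable from ordinals, and this is enough to show that it concentrates on
ordinals greater than `δ` which are singular in HOD: the ordinals in `(μ, μ⁺)`, and singular strong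
limit cardinals, respectively. Their first cofinal subsets of HOD of least order type cohere on a
set in the measure, a contradiction.
-/

open Cardinal Order
open scoped ZFSet

universe u

theorem Pool.Agent.Results.MP_e37c09_lc.ChoicelessModel.result
    (δ : Ordinal.{u}) (hδ : HD.Extendible δ) :
    ((∀ K : Cardinal.{u}, K.IsInaccessible → ∀ γ : Ordinal.{u}, IsSuccLimit γ → γ ≤ K.ord →
        HD.HV.Fit γ K) ∧
      (∀ K : Cardinal.{u}, δ ≤ K.ord → ∀ γ : Ordinal.{u}, IsSuccLimit γ → γ ≤ δ →
        HD.HV.Fit γ K) ∧
      (∀ (K : Cardinal.{u}) (γ : Ordinal.{u}), IsSuccLimit γ → ZFSet.card (V_ γ) ≤ K →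
        HD.HV.Fit γ K) ∧
      ∀ γ : Ordinal.{u}, IsSuccLimit γ → ∀ x ∈ V_ γ, HD.HV.NV γ x) ∧
    ∀ K : Cardinal.{u}, K.IsRegular → δ < K.ord → ∀ γ : Ordinal.{u}, HD.HV.Fit γ K →
      (HD.HV.SucIna K → (¬ HD.CaseA δ ↔ HD.HV.MeaN γ K.ord)) ∧
      ((¬ HD.CaseA δ ↔ HD.HV.MCof δ γ K.ord) ∧ (¬ HD.CaseA δ ↔ HD.HV.FIL δ γ K) ∧
        (¬ HD.CaseA δ ↔ HD.HV.RegS δ γ K.ord) ∧ (¬ HD.CaseA δ ↔ HD.HV.RegC γ K.ord) ∧
        (¬ HD.CaseA δ ↔ HD.HV.EmbS δ γ K.ord) ∧ (¬ HD.CaseA δ ↔ HD.HV.VEN γ K) ∧
        (¬ HD.CaseA δ ↔ HD.HV.INDH δ γ K.ord) ∧ (¬ HD.CaseA δ ↔ HD.HV.INDN δ γ K.ord) ∧
        (¬ HD.CaseA δ ↔ HD.HV.INDW δ γ K.ord) ∧ (¬ HD.CaseA δ ↔ HD.HV.CLSN δ γ K.ord) ∧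
        (¬ HD.CaseA δ ↔ HD.HV.RBMN δ γ K.ord)) ∧
      ((∀ μ : Cardinal.{u}, K = succ μ → μ.ord.cof ≠ ℵ₀) →
        (¬ HD.CaseA δ ↔ HD.HV.NES δ γ K.ord) ∧ (¬ HD.CaseA δ ↔ HD.HV.NEC γ K.ord)) ∧
      (δ ≤ γ → HD.HV.NoBdd δ γ K.ord) :=
  Pool.Agent.H97.HV.choiceless3 hδ
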