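import Pool.Agent.H97.PRP.Last

/-!
# MP_e37c09_lc: small sets of points of a club and the model HOD

Let `δ` be extendible and `κ > δ` regular. For a club set `C ⊆ κ` and `N < δ` let `S(C)` be the
set of the nonempty sets of at most `N` points of `C` of cofinality at most `N`. Write OD_x for
definable from `x` and ordinals.

(1) There is ONE club set `C` such that for all small sets `x` of points of `C` (`Sml`: `x ∈ S(C)`
for some `N < δ`) the following holds. Here `x` is ARBITRARY, it is not assumed to be generic.

(a) Capturing, in both cases (A) and (B). For each OD_x set `X ⊆ κ` there is an ordinal definable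
`D`, for each `w` with fewer than `δ` sets `Y` such that `(w, Y) ∈ D`, and `(x ∩ (a + 1), X ∩ a) ∈
D` for all `a ∈ x` such that `x ∩ a` is finite. If `V_δ` is contained in HOD then `D` can be
chosen single valued and in HOD. If `c ^ ν < κ` for `c < κ`, `ν < δ`, then this is true (with `D`
single valued and ordinal definable, if `V_δ` is contained in HOD) for ALL `a ∈ x`.

So each OD_x subset of `a`, where `a ∈ x` and `x ∩ a` is finite, is an element of an ordinal
definable set with fewer than `δ` elements (and is in HOD if `V_δ` is contained in HOD): `x` adds
no bounded subsets. If `x` is of order type `ω`, `β = sup x` and `V_δ` is contained in HOD then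
all OD_x subsets of `β` are in the model HOD[x]. For the `κ` as above and `V_δ` contained in HOD
the models HOD_x and HOD_(x ∩ a) have the same subsets of `a`, for all small `x ⊆ C` and `a ∈ x`,
as for sequences which are generic for the forcings of Magidor and Radin.

(b) If (A) fails, `x` is of order type `ω` and unbounded in `β < κ`, then `x` preserves the
successor cardinal of `β` in HOD (`Bpl`), and all values of an OD_x sequence of length `β` of
subsets of `β` in HOD are values of a function in HOD at ordinals less than `β` (`Suc`): the
analogue of the chain condition. By (2a) `β` is inaccessible in HOD, so `x` makes it singular.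

(2) Suppose that (A) fails and let `κ > δ` be regular.

(a) The points of `C` are inaccessible in HOD.

(CLS) For each `N < δ` there are fewer than `δ` ordinal definable sets modulo the filter generated
by the sets `S(C)`: there are `τ < δ` and classes `g i`, `i < τ`, such that for each ordinal
definable set `Q` there are `i < τ` and `C` with `Q ∩ S(C) = g i ∩ S(C)`.

(RBM) For each `N < δ` and each ordinal definable function `f` there is a club set `C` such that
`f` takes fewer than `δ` values at the `x ∈ S(C)` with `f x < min x`.

(IND) Each `T` which meets each club subset of `κ` in a point of cofinality less than `δ` has a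
subset `A` with the same property, all of whose points are of cofinality less than `δ`, such that
for all `β ≤ κ` with `A ∩ β` unbounded in `β` each regressive function on `β` in HOD is constant
on a final segment of `A ∩ β`, and for each sequence `Y n`, `n < β`, in HOD the set of the `n`
such that `Y n` contains a final segment of `A ∩ β` is in HOD.

(3) For EVERY singular cardinal `γ > δ` the following are equivalent, with `κ = γ⁺`: (A) fails;
there is an unbounded set `A ⊆ κ` such that each regressive function on `κ` in HOD is constant on
a final segment of `A`; (CLS); (RBM).

Proof. Let `F` be a family of sets of ordinals `F_x`. A class `P` of small sets is positive if it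
meets all `S(C)`. An ordinal `i` splits `F` if for some `Y ⊆ i` both `{x : F_x ∩ i = Y, i ∈ F_x}`
and `{x : F_x ∩ i = Y, i ∉ F_x}` are positive.

Lemma. If (A) fails and `F` is ordinal definable there are fewer than `δ` splitting points below
`κ`. Otherwise let `X` be the set of the splitting points. Some `α > δ` of cofinality less than
`δ` is regular in HOD, and we can assume that `X` has order type at least `α`. Let `lam` be the
supremum of the first `α` points of `X`, `j : V_η → V_θ` be an embedding with critical point `δ`,
`ρ = sup j''κ`. If `C` is club in `κ` then `j''C` is contained in a club subset of `ρ` and the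
small subsets of suitable club sets are of the form `j x = j''x` (the argument of Solovay), so the
splitting points of `j F` at `ρ` are exactly the points `j i`, `i ∈ X`. By elementarity some `ρ'`
has fewer than `δ` splitting points of `F` below `lam`, unboundedly many; so `α` has in HOD a
cofinal subset of order type less than `δ`. The same argument gives that for an ordinal definable
family `F_(s ∪ y)` and almost all small `s` the family `y ↦ F_(s ∪ y)` has fewer than `δ`
splitting points: now `α < min s` has an OD_s cofinal subset with fewer than `δ` elements, which
is an element of a small ordinal definable set.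

By the lemma and as `δ` is a strong limit, modulo fewer than `κ` null classes `F_x ∩ n` is
determined by its intersection with the set of the splitting points; for the sequence of the
ordinal definable sets which are different from all earlier ones modulo null classes this gives
(CLS), and (RBM) is similar. For (1a) let `F_x` be the least counterexample at `x`; for the
initial segment `s` of `x` below `a` the set `F_x ∩ a` is one of the fewer than `δ` sets `Y ⊆ a`
such that `{y : F_(s ∪ y) ∩ n = Y ∩ n}` is positive for all `n < a`, if `C` is a diagonal
intersection. For (1b) let `F_x` be the (code of the) least counterexample. There is an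
enumeration `e` of the subsets of `κ` in HOD such that the subsets of `β` in HOD are the `e z ∩
β`, `z < β`, for club many `β`. If the value at `ξ` is `e z ∩ β` and `a > z, ξ` is in `x`, then `e
z ∩ a` is among the values at `x ∩ (a + 1)`, so this is true for a positive set of ordinals `a`
and fixed `s = x ∩ a`, and there are fewer than `κ` such subsets of `κ` for `s` and `ξ`. If (A)
holds then `x` is an element of an ordinal definable set with fewer than `δ` elements. (IND): a
positive set of points of fixed cofinality which is an atom for the ordinal definable sets is
normal for HOD. (3): if (A) holds the matrix of Ulam for `γ⁺` is ordinal definable.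
-/

set_option autoImplicit false

open Ordinal Cardinal Order Set
open scoped ZFSet

universe u

namespace Pool.Agent.Results.MP_e37c09_lc.PrikrySequences

open _root_.HD HD.PRK HD.PRP

theorem result (δ : Ordinal.{u}) (hδ : Extendible δ) :
    (∀ K : Cardinal.{u}, K.IsRegular → δ < K.ord → ∃ C : Set Ordinal.{u}, Clb K.ord C ∧
      (∀ x, Sml δ K.ord C x → ∀ X, X ⊆ K.ord.toZFSet → NF.ODp x X →
        (∃ D, OD D ∧ Thin δ D ∧ Cap x X D) ∧
        ((∀ y ∈ V_ δ, HOD y) → ∃ E, HOD E ∧ HD.PRP.Fun E ∧ Cap x X E) ∧
        (ClK δ K → (∃ D, OD D ∧ Thin δ D ∧ CapA x X D) ∧
          ((∀ y ∈ V_ δ, HOD y) → ∃ E, OD E ∧ HD.PRP.Fun E ∧ CapA x X E))) ∧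
      (¬ CaseA δ → (∀ a ∈ C, a < K.ord → InacHOD a) ∧ Suc δ K.ord C ∧ Bpl δ K.ord C)) ∧
    (¬ CaseA δ → ∀ K : Cardinal.{u}, K.IsRegular → δ < K.ord →
      IND δ K.ord ∧ CLS δ K.ord ∧ RBM δ K.ord) ∧
    ∀ γ : Cardinal.{u}, ℵ₀ ≤ γ → ¬ γ.IsRegular → δ < γ.ord →
      (¬ CaseA δ ↔ ∃ A : Set Ordinal.{u}, Unb (succ γ).ord A ∧ Hom (succ γ).ord A) ∧
      (¬ CaseA δ ↔ CLS δ (succ γ).ord) ∧ (¬ CaseA δ ↔ RBM δ (succ γ).ord) :=
  have h := Pool.Agent.H97.PRK.last δ hδ
  ⟨fun K hK hδK => Pool.Agent.H97.PRP.last2 δ hδ K hK hδK, h.2.2.2, h.2.2.1⟩

end Pool.Agent.Results.MP_e37c09_lc.PrikrySequences
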