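import Pool.Agent.H98.SDT.Fin20

/-!
# MP_e37c09_lc: a dichotomy for HOD with parameters, at a strong limit cardinal

Write OD_x for definable from `x` and ordinals, and HOD_x for the class of the hereditarily OD_x
sets. Let `L` be an uncountable strong limit cardinal, let `μ < L` and `K > L` be regular. Let `κ`
and `Λ ≤ L` be cardinals. Hypothesis (R) (`RflN`): for each family of fewer than `κ` subsets of `K`
which are stationary in the points of cofinality `μ` there is an ordinal `β < K`, of uncountable
cofinality less than `Λ`, at which all of them are stationary in the points of cofinality `μ`.

Let `A` be a nonempty class which is definable from ordinals and each of its elements, by one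
formula with fixed ordinals for all elements, such that any `L` elements of `A` are OD_x for one
`x ∈ A` (`PCl`). Examples are `A = {x}`, `A = P(L)` and the class of all sets of at most `L`
ordinals (`SmO`). Let `NC A` be the class of the sets which are hereditarily definable from
ordinals and one element of `A`: HOD_x for `A = {x}`, HOD(P(L)) for `A = P(L)`.

Say that `K` has the property M(A) (`MsrK`) if there are `τ < L` and disjoint sets `T i ⊆ K`,
`i < τ`, all definable from ordinals and one element of `A`, which are stationary in the points of
cofinality `μ` and contain almost all of these points, such that for each `i` the sets in `NC A`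
which contain almost all points of cofinality `μ` of `T i` are a normal measure of `NC A` on `K`,
and each function from `K` to `P(L)` which is definable from ordinals and an element of `A` is
constant almost everywhere on `T i`. Let I(x) (`InjX`) say that some one-to-one function from `L⁺`
to `P(L)` is OD_x.

(1) Let (R) hold. `K` has the property M(A), or there is `x ∈ A` such that each subset of `L` with
fewer than `κ` elements is contained in an OD_x set with fewer than `Λ` elements (`CvN`). If in
addition the cofinality of `L` is less than `κ` then in the second case there is such an `x` for
which I(x) holds, and `P(L) ⊆ HOD_y` for each set `y` such that `x` is OD_y and all bounded subsets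
of `L` are in HOD_y (`Bds`).

(2) Let (R) hold for `K = L⁺`, and let the cofinality of `L` be less than `κ`. Then `L⁺` is not
measurable in `NC A` (`CM`) if and only if I(x) holds for some `x ∈ A`. If `P(L) ⊆ A` this is
equivalent to: `P(L) ⊆ HOD_x` for some `x ∈ A`. If all bounded subsets of `L` are in HOD_x then
I(x) is equivalent to `P(L) ⊆ HOD_x`, and also to: `L⁺` is the successor of `L` in HOD_x (`SuX`).

(3) Let `δ` be extendible and `L > δ`. Then (R) holds for `κ = Λ = δ`, all regular `μ < δ` and all
regular `K > L`. Let the cofinality of `L` be less than `δ`. The following are equivalent: I(x)
holds for some `x ∈ A`; for some `x ∈ A` each subset of `L` with fewer than `δ` elements is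
contained in an OD_x set with fewer than `δ` elements; `L⁺` is not measurable in `NC A`; not all
regular `K > L` have a normal measure in `NC A`. If all bounded subsets of `L` are in HOD_x then
I(x) is equivalent to: HOD_x computes the successor of some cardinal `G ≥ L` correctly. If `x` is an
element of an ordinal definable set with fewer than `L` elements (`SmX`) then I(x) is equivalent to
the first alternative (A) of the dichotomy of Woodin. Since (A) implies I(x) for all `x`, it is
refuted by one `L > δ` of cofinality `ω` such that `L⁺` is measurable in HOD(P(L)), and also by one
set `x` and one `L > δ` of cofinality less than `δ` such that all bounded subsets of `L` but not all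
subsets of `L` are in HOD_x. If (A) fails then for each set `x` and each strong limit cardinal
`L > δ` of cofinality less than `δ` such that `x ∈ V_γ` for some `γ` with `|V_γ| < L`, each regular
`K > L` has a normal measure in HOD_x.

(4) Let `δ` be extendible and let `n` be a cardinal less than `δ`. Exactly one of the following
holds. For each cardinal `G` there is a set `x` of at most `n` ordinals such that each subset of `G`
with fewer than `δ` elements is contained in an OD_x set with fewer than `δ` elements. For each set
`x` of at most `n` ordinals (`SmO`) each regular `K > δ` has a normal measure in HOD_x. For `n = 0`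
this is the dichotomy of Woodin. So the first alternative follows if there are a set `x` of at most
`n` ordinals and a strong limit cardinal `L > δ` of cofinality less than `δ` such that I(x) holds.

The dichotomy of Woodin gives the equivalences of (3) for `A = {x}`, `x ∈ V_δ`, and (4) for `n = 0`.
Goldberg proved for a class of inner models which contains HOD_x for all sets `x` that the model has
the `δ`-cover property or all sufficiently large regular cardinals are measurable in it. In (1)-(3)
the cardinals `L` and `K` are arbitrary, and (1) and (2) are proved from (R) alone.

For `L` of uncountable cofinality `P(L) ⊆ HOD_x` holds for each `x` such that all bounded subsets of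
`L` are in HOD_x, by the argument of Shelah; for cofinality `ω` it can fail (Cummings, Friedman,
Magidor, Rinot and Sinapova), even with `L⁺` supercompact in HOD_x for all `x ⊆ L`.

Proof. Say that `x` splits strongly if there is an OD_x family of `L` disjoint subsets of `K` which
are stationary in the points of cofinality `μ`.

First case: some `x ∈ A` splits strongly. Let `y ⊆ L` have fewer than `κ` elements and let `β`
reflect all members with an index in `y` of the family. The set of the indices of the members which
are stationary at `β` is OD_x, contains `y` and has at most `cf β < Λ` elements. This is the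
covering property.

Covering gives I(x): otherwise there are at most `L` OD_x subsets of `L`, let `E i`, `i < L`, be
those with fewer than `L` elements. Let `m n`, `n < cf L`, be cofinal in `L`, and choose `y n < L`
outside of all `E i` with `i < m n` which have at most `m n` elements. Then no `E i` contains all
`y n`, a contradiction. And I(x) shows that there is no `L⁺`-complete nonprincipal ultrafilter on
`L⁺` in `NC A`, since an ultrafilter in `NC A` and `x` are OD_z for one `z ∈ A`.

If `y` is such that `x` is OD_y and all bounded subsets of `L` are in HOD_y, then `y` splits
strongly too, so we have the covering property for `y`. An enumeration of the bounded subsets of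
`L` of length `L` is OD_y, and each subset of `L` is given by a set of `cf L` indices of bounded
subsets, which is a subset of an OD_y set with fewer than `L` elements, hence OD_y.

Second case: no `x ∈ A` splits strongly. Let `x ∈ A`. For an ordinal `a < K` define by recursion the
set `J` of the codes of the OD_x sets which split the set of the ordinals on the same side as `a` of
all sets with smaller codes in `J` into two stationary sets. The parts which do not contain `a` are
disjoint and stationary, so `J` has fewer than `L` elements. The class of `a`, the set of all
ordinals on the same side as `a` of all sets with codes in `J`, is not split by an OD_x set into two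
stationary sets. The class of `a` is determined by the set of all `i` such that `a` is in the set
with the `i`-th code in `J`, a bounded subset of `L`; so there are at most `L < K` classes, and the
union of the nonstationary ones is nonstationary. The classes which are stationary are disjoint;
they are the atoms for `x`, and there are fewer than `L` of them.

The number of the atoms is at most `N` for all `x ∈ A`, for one `N < L`: otherwise take one `x ∈ A`
for a sequence of parameters with more and more atoms; it has fewer than `L` atoms, but at least as
many as each of these parameters. So there are at most `2 ^ N` OD_x subsets of `K` modulo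
nonstationary sets for each `x ∈ A`. Since any `(2 ^ N)⁺` elements of `A` are OD_x for one `x ∈ A`,
there is one `x ∈ A` such that each subset of `K` which is OD_y for some `y ∈ A` is equal to an OD_x
set modulo a nonstationary set. The atoms for this `x` are the sets `T i`.

(3): if the successor of `G ≥ L` is correctly computed in HOD_x then some one-to-one function from
`G⁺` to `P(G)` is OD_x, so `G⁺` is not measurable in HOD_x. If `x` is in the ordinal definable set
`B` with fewer than `L` elements and `F_x` is an OD_x one-to-one function from `L⁺` to `P(L)`, then
for `i < L⁺` the function which maps `y ∈ B` to `F_y(i)` is coded by a subset of `L`, with the least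
codes of ordinal definable subsets of `B`; this gives I(∅), so `L⁺` is not measurable in HOD and the
second alternative of the dichotomy of Woodin fails.

(4): let `x` be a set of at most `n` ordinals. If some regular `K > δ` has no normal measure in
HOD_x then by the second case, for `L = δ` and `μ = ω`, there is an OD_x family of `δ` disjoint
stationary subsets of `K` of points of cofinality `ω`. Let `j` be an elementary embedding with
critical point `δ` and `j(δ) > G`. Then `j(x)` is a set of at most `n` ordinals, and there is an
OD_j(x) family of `j(δ)` disjoint stationary subsets of `j(K)` of points of cofinality `ω`. Since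
`j(K) > G` reflects fewer than `δ` of them, the covering property holds for `j(x)` at `G`. And the
covering property at one `G ≥ δ` of cofinality `ω` gives an OD_x one-to-one function from `G⁺` to
`P(G)`, so `G⁺` has no normal measure in HOD_x.
-/

set_option autoImplicit false

open Ordinal Cardinal Order Set
open scoped ZFSet

universe u

namespace Pool.Agent.Results.MP_e37c09_lc.SecondDichotomy

open _root_.HD _root_.HD.SD
open _root_.HD.HV (NMeas)

theorem result :
    (∀ L : Cardinal.{u}, ℵ₀ < L → L.IsStrongLimit →
      (∀ x, PCl L fun y => y = x) ∧ (PCl L fun y => y ⊆ L.ord.toZFSet) ∧ PCl L (SmO L)) ∧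
    (∀ L : Cardinal.{u}, ℵ₀ < L → L.IsStrongLimit → ∀ M : Cardinal.{u}, M.IsRegular → M < L →
      ∀ κ Λ : Cardinal.{u}, Λ ≤ L → ∀ K : Cardinal.{u}, K.IsRegular → L < K →
        RflN κ Λ M.ord K → ∀ A : ZFSet.{u} → Prop, PCl L A →
          (∃ τ T, MsrK A M.ord K L τ T) ∨
          ∃ x, A x ∧ CvN κ Λ L x ∧ (L.ord.cof < κ → InjX L x ∧
            ∀ y, NF.ODp y x → Bds L y → ∀ z, z ⊆ L.ord.toZFSet → NF.ODp y z)) ∧
    (∀ L : Cardinal.{u}, ℵ₀ < L → L.IsStrongLimit → ∀ M : Cardinal.{u}, M.IsRegular → M < L →
      ∀ κ Λ : Cardinal.{u}, Λ ≤ L → L.ord.cof < κ → RflN κ Λ M.ord (succ L) →
        (∀ A : ZFSet.{u} → Prop, PCl L A →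
          ((∃ x, A x ∧ InjX L x) ↔ ¬ ∃ U, CM (NC A) (succ L).ord U) ∧
          ((∀ z, z ⊆ L.ord.toZFSet → A z) →
            ((∃ x, A x ∧ InjX L x) ↔ ∃ x, A x ∧ ∀ z, z ⊆ L.ord.toZFSet → NF.ODp x z))) ∧
        ∀ x, Bds L x → (InjX L x ↔ ∀ z, z ⊆ L.ord.toZFSet → NF.ODp x z) ∧
          (InjX L x ↔ SuX L x)) ∧
    (∀ δ : Cardinal.{u}, Extendible δ.ord → ∀ L : Cardinal.{u}, δ < L → L.IsStrongLimit →
      ℵ₀ < δ ∧
      (∀ M : Cardinal.{u}, M.IsRegular → M < δ → ∀ K : Cardinal.{u}, K.IsRegular → L < K →
        RflN δ δ M.ord K) ∧
      (L.ord.cof < δ →
        (∀ A : ZFSet.{u} → Prop, PCl L A →
          ((∃ x, A x ∧ InjX L x) ↔ ∃ x, A x ∧ CvN δ δ L x) ∧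
          ((∃ x, A x ∧ InjX L x) ↔
            ¬ ∀ K : Cardinal.{u}, K.IsRegular → L < K → ∃ U, NMeas (NC A) K.ord U)) ∧
        ∀ x, (Bds L x → (InjX L x ↔ ∃ G, L ≤ G ∧ SuX G x)) ∧
          (SmX L x → (InjX L x ↔ CaseA δ.ord)) ∧
          (CaseA δ.ord → InjX L x))) ∧
    ∀ δ : Cardinal.{u}, Extendible δ.ord → ∀ n < δ,
      ((∃ x, SmO n x ∧ ¬ ∀ K : Cardinal.{u}, K.IsRegular → δ < K →
          ∃ U, NMeas (NC fun y => y = x) K.ord U) ↔
        ∀ G : Cardinal.{u}, ∃ x, SmO n x ∧ CvN δ δ G x) :=
  HD.SD.fin11'

end Pool.Agent.Results.MP_e37c09_lc.SecondDichotomy
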