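import Pool.Agent.H54.WM.Asm

/-!
# MP_e37c09_lc: elementary embeddings of HOD into transitive classes

Let `δ` be extendible. Then exactly one of the following holds.

(1) (A) holds, and for no singular cardinal `γ > δ` is there an elementary embedding of HOD into a
transitive class with critical point strictly between `γ` and `γ⁺`.

(2) (A) fails; for every singular cardinal `γ > δ` of uncountable cofinality there are `ξ` strictly
between `γ` and `γ⁺` and an elementary embedding of HOD into a transitive class with critical point
`ξ` and all properties listed in `HodEmb ξ γ⁺`; and there are arbitrarily large `δ₀ < δ` such that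
every regular cardinal `K > δ₀` has the following properties.

(VE) There are a closed unbounded subset `C` of `K` and an enumeration `e ζ`, `ζ < K`, of the
subsets of `K` in HOD such that for each `ξ < K` in `C` the subsets of `ξ` in HOD are the sets
`e ζ ∩ ξ`, `ζ < ξ`, and there is an elementary embedding of `(V_(ξ+1))^HOD` into `(V_(K+1))^HOD`
with critical point `ξ` which maps `ξ` to `K`.

(TwoTypes) The successor cardinals of `K` and of club many `ξ < K` in HOD are all of cofinality `ω`;
or the one of `K` is of cofinality `K`, and those of club many `ξ < K` are of cofinality `cf ξ`.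

(WMC) If `K` is not the successor of a cardinal of cofinality `ω`, then for club many `ξ < K` of
uncountable cofinality there are a transitive class `M` and an elementary embedding `j` of HOD into
`M` (`HodEmb ξ K M j`): its restriction to `(V_(ξ+1))^HOD` is an elementary embedding into
`(V_(K+1))^HOD` with critical point `ξ` which maps `ξ` to `K`; `M` and HOD have the same elements in
`V_K`; the subsets of `V_K` in `M` are in HOD; `j` fixes all regular cardinals greater than `K`; and
if in HOD `2 ^ K = K⁺` and the successor of `K` in HOD has cofinality `ω`, then all subsets of `K`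
in HOD are in `M`.
-/

open Cardinal Order

universe u

theorem Pool.Agent.Results.MP_e37c09_lc.WholeModel.result
    (δ : Ordinal.{u}) (hδ : HD.Extendible δ) :
    (HD.CaseA δ ∧ ∀ γ : Cardinal.{u}, ℵ₀ ≤ γ → ¬ γ.IsRegular → δ < γ.ord → ∀ ξ, γ.ord < ξ →
      ξ < (succ γ).ord → ¬ ∃ M j, Pool.Agent.H54.WM.CEmb ξ M j) ∨
    (¬ HD.CaseA δ ∧
      (∀ γ : Cardinal.{u}, ¬ γ.IsRegular → ℵ₀ < γ.ord.cof → δ < γ.ord → ∃ ξ, γ.ord < ξ ∧
        ξ < (succ γ).ord ∧ ∃ M j, Pool.Agent.H54.WM.HodEmb ξ (succ γ) M j) ∧
      ∀ l < δ, ∃ δ₀ < δ, l < δ₀ ∧ ∀ K : Cardinal.{u}, K.IsRegular → δ₀ < K.ord →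
        HD.VE K ∧ HD.TwoTypes K ∧ Pool.Agent.H54.WM.WMC K) :=
  Pool.Agent.H54.WM.wm δ hδ
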